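import Pool.Agent.Helper52.SM.Goals

/-!
# The length of the pruned list
-/

namespace Pool.Agent.Helper15.SM

open Pool.Agent.Helper52.SM Pool.Agent.Helper81.CC Pool.Agent.Helper78.DT
open Pool.Agent.Helper78
open scoped Classical

theorem mem_cases {act : PM.View → ℕ} {c : ℕ} {x : List Bool} {b : ℕ → Bool} {i : ℕ} {M' : PM.Mem}
    (h : mem act c x b (i + 1) = some M') :
    ∃ M₀, mem act c x b i = some M₀ ∧ (M' = M₀ ∨ ∃ a, M' = M₀ ++ [(i, a)]) := by
  rw [mem] at h
  split at h
  · exact absurd h (by simp)
  · rename_i M₀ h0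
    split_ifs at h with h1 h2
    · exact ⟨M₀, h0, Or.inr ⟨_, (Option.some.inj h).symm⟩⟩
    · exact ⟨M₀, h0, Or.inl (Option.some.inj h).symm⟩

theorem mem_lt (hM : MemStmt) {act : PM.View → ℕ} {c : ℕ} {x : List Bool} {b : ℕ → Bool} {i : ℕ}
    {M : PM.Mem} (h : mem act c x b i = some M) : ∀ e ∈ M, e.1 < i :=
  (hM act c x (fun _ _ => false) b 0 i M h).1

theorem mem_prev (hM : MemStmt) {act : PM.View → ℕ} {c : ℕ} {x : List Bool} {b : ℕ → Bool} {i : ℕ}
    {M : PM.Mem} (hlt : ∀ e ∈ M, e.1 < i)
    (h : mem act c x b (i + 1) = some M ∨ ∃ a, mem act c x b (i + 1) = some (M ++ [(i, a)])) :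
    mem act c x b i = some M := by
  rcases h with h | ⟨a, h⟩
  · obtain ⟨M₀, h0, h1 | ⟨a, h1⟩⟩ := mem_cases h
    · rw [h1]; exact h0
    · have := hlt (i, a) (by rw [h1]; simp)
      exact absurd this (lt_irrefl _)
  · obtain ⟨M₀, h0, h1 | ⟨a', h1⟩⟩ := mem_cases h
    · have := mem_lt hM h0 (i, a) (by rw [← h1]; simp)
      exact absurd this (lt_irrefl _)
    · have h2 := List.append_inj_left' h1 rfl
      rw [h2]; exact h0

theorem sum_qm (hM : MemStmt) (act : PM.View → ℕ) (c : ℕ) (x : List Bool) (m : ℕ)
    (s : List (ℕ × Bool)) (i : ℕ) (M : PM.Mem) (hlt : ∀ e ∈ M, e.1 < i)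
    (F : Finset (List Bool)) :
    ∑ a ∈ F, qm act c x m s (i + 1) (M ++ [(i, a)]) + qm act c x m s (i + 1) M ≤
      qm act c x m s i M := by
  unfold qm
  simp only [pr_eq_av]
  rw [← av_sum, ← av_add]
  refine av_mono fun y => ?_
  set X := mem act c x (ov s (PM.coins y)) (i + 1) with hX
  by_cases h1 : X = some M
  · rw [Finset.sum_eq_zero, zero_add, if_pos h1, if_pos (mem_prev hM hlt (Or.inl h1))]
    intro a _
    rw [if_neg]
    intro h2
    rw [h1] at h2
    have h3 := congrArg List.length (Option.some.inj h2)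
    simp at h3
  · rw [if_neg h1, add_zero]
    by_cases h2 : ∃ a ∈ F, X = some (M ++ [(i, a)])
    · obtain ⟨a, ha, h2⟩ := h2
      rw [if_pos (mem_prev hM hlt (Or.inr ⟨a, h2⟩)), Finset.sum_eq_single a]
      · rw [if_pos h2]
      · intro a' _ hne
        rw [if_neg]
        intro h3
        rw [h2] at h3
        have h4 := List.append_cancel_left (Option.some.inj h3)
        apply hne
        simpa using h4.symm
      · intro h; exact absurd ha h
    · rw [Finset.sum_eq_zero]
      · split_ifs <;> norm_num
      · intro a ha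
        rw [if_neg fun h => h2 ⟨a, ha, h⟩]

/-- **LEN.** -/
theorem LEN (hL : LvmStmt) (hM : MemStmt) : LenStmt := by
  intro act c x m s ε hε n
  induction n with
  | zero =>
    intro i M l _
    simp [pl]
  | succ n ih =>
    intro i M l hlt
    set L : ℝ := 2 ^ PM.bd c x with hLdef
    have hL0 : 0 ≤ L := by positivity
    obtain ⟨hnd, hlen, -, -⟩ := hL act x i M (PM.bd c x)
    have hn0 : (0 : ℝ) ≤ n := Nat.cast_nonneg n
    have hq : ∀ i M, 0 ≤ qm act c x m s i M := fun i M => pr_nonneg _
    set f : List Bool → List (List (ℕ × Bool) × Lab) := fun a =>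
      if act (x, i, M, a) = 1 then [(l ++ lit act x i M a, Sum.inl false)]
      else if act (x, i, M, a) = 2 then [(l ++ lit act x i M a, Sum.inl true)]
      else if act (x, i, M, a) = 3 ∧ PM.msize M + a.length ≤ PM.bd c x then
        (if Pe act c x m s ε i (M ++ [(i, a)]) then
            pl act c x (Pe act c x m s ε) n (i + 1) (M ++ [(i, a)]) (l ++ lit act x i M a)
          else [(l ++ lit act x i M a, Sum.inr (i, M ++ [(i, a)]))])
      else [] with hf
    have hpl : pl act c x (Pe act c x m s ε) (n + 1) i M l =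
        (lvM act x i M (PM.bd c x)).flatMap f ++
          pl act c x (Pe act c x m s ε) n (i + 1) M l := by
      rw [pl]
    have hblock : ∀ a, ((f a).length : ℝ) ≤
        1 + (1 + n * L) * ((n + 1) / ε) * qm act c x m s (i + 1) (M ++ [(i, a)]) := by
      intro a
      have h0 : 0 ≤ (1 + n * L) * ((n + 1) / ε) * qm act c x m s (i + 1) (M ++ [(i, a)]) := by
        have := hq (i + 1) (M ++ [(i, a)])
        positivity
      rw [hf]
      simp only
      split_ifs with h1 h2 h3 h4
      · simpa using h0
      · simpa using h0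
      · have h5 := ih (i + 1) (M ++ [(i, a)]) (l ++ lit act x i M a) (by
          intro e he
          rw [List.mem_append] at he
          rcases he with he | he
          · exact (hlt e he).trans (Nat.lt_succ_self i)
          · rw [List.mem_singleton] at he
            rw [he]
            exact Nat.lt_succ_self i)
        have h6 : ε ≤ qm act c x m s (i + 1) (M ++ [(i, a)]) := by
          unfold Pe at h4
          exact of_decide_eq_true h4
        set q := qm act c x m s (i + 1) (M ++ [(i, a)]) with hqd
        have h7 : 1 ≤ q / ε := by rwa [le_div_iff₀ hε, one_mul]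
        refine h5.trans ?_
        have h8 : (1 + n * L) * (1 + n * q / ε) ≤ (1 + n * L) * (q / ε + n * q / ε) := by
          apply mul_le_mul_of_nonneg_left _ (by positivity)
          linarith
        have h9 : (1 + n * L) * (q / ε + n * q / ε) = (1 + n * L) * ((n + 1) / ε) * q := by
          field_simp
          ring
        linarith
      · simpa using h0
      · simp only [List.length_nil, Nat.cast_zero]
        linarith
    have hsum : (((lvM act x i M (PM.bd c x)).flatMap f).length : ℝ) ≤
        L + (1 + n * L) * ((n + 1) / ε) *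
          ∑ a ∈ (lvM act x i M (PM.bd c x)).toFinset, qm act c x m s (i + 1) (M ++ [(i, a)]) := by
      rw [List.length_flatMap, ← List.sum_toFinset _ hnd]
      push_cast
      refine (Finset.sum_le_sum fun a _ => hblock a).trans ?_
      rw [Finset.sum_add_distrib, ← Finset.mul_sum]
      refine add_le_add_left ?_ _
      rw [Finset.sum_const, List.toFinset_card_of_nodup hnd, nsmul_eq_mul, mul_one]
      have hlen' : ((lvM act x i M (PM.bd c x)).length : ℝ) ≤ ((2 ^ PM.bd c x : ℕ) : ℝ) :=
        Nat.cast_le.mpr hlen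
      refine hlen'.trans (le_of_eq ?_)
      rw [hLdef]
      push_cast
      rfl
    have hrest := ih (i + 1) M l (fun e he => (hlt e he).trans (Nat.lt_succ_self i))
    have hqs := sum_qm hM act c x m s i M hlt (lvM act x i M (PM.bd c x)).toFinset
    set S := ∑ a ∈ (lvM act x i M (PM.bd c x)).toFinset, qm act c x m s (i + 1) (M ++ [(i, a)])
      with hS
    set q0 := qm act c x m s (i + 1) M with hq0
    set q := qm act c x m s i M with hqd
    have hq0' : 0 ≤ q0 := hq _ _
    have hqq : 0 ≤ q := hq _ _
    rw [hpl, List.length_append]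
    push_cast
    have h1 : (1 + n * L) * ((n + 1) / ε) * S + (1 + n * L) * (1 + n * q0 / ε) ≤
        (1 + n * L) * (1 + (n + 1) * q / ε) := by
      have e1 : (1 + n * L) * ((n + 1) / ε) * S + (1 + n * L) * (1 + n * q0 / ε) =
        (1 + n * L) * (1 + ((n + 1) * S + n * q0) / ε) := by
        field_simp
        ring
      rw [e1]
      apply mul_le_mul_of_nonneg_left _ (by positivity)
      have h2 : ((n + 1) * S + n * q0) / ε ≤ (n + 1) * q / ε := by
        apply div_le_div_of_nonneg_right _ hε.le
        nlinarith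
      linarith
    have h2 : (1 + ((n : ℝ) + 1) * L) * (1 + ((n : ℝ) + 1) * q / ε) =
        (1 + n * L) * (1 + (n + 1) * q / ε) + L * (1 + (n + 1) * q / ε) := by ring
    have h3 : 0 ≤ (n + 1) * q / ε := by positivity
    have h4 : L ≤ L * (1 + (n + 1) * q / ε) := le_mul_of_one_le_right hL0 (by linarith)
    linarith

end Pool.Agent.Helper15.SM
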